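import Mathlib
import Pool.Agent.Helper861.TwoFields

set_option autoImplicit false

namespace Pool.Agent.Results.MP_3f7cc7_co.CriticalExponentTwoFields

/-- Let `F` be a finite field and take finitely many nonzero vectors over `F` whose matroid is a gammoid (a
transversal matroid contracted by an independent set, in the form of the frozen statement S05379).
(1) Some linear map to `F ^ 3` sends none of the vectors to zero, i.e. the critical exponent is at most `3`.
(2) If `F` has 4 elements, some linear map to `F ^ 2` sends none of the vectors to zero.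
(3) If the vectors span a space of dimension at most `|F|`, some linear map to `F ^ 2` sends none of the
vectors to zero.
(4) If the same matroid is also represented by vectors over a finite field `F'` with `6 (|F'| - 1) ^ 2 < |F| ^ 2`,
some linear map to `F ^ 2` sends none of the given vectors over `F` to zero. -/
theorem result :
    ∀ (F : Type) [Field F] [Fintype F] (N r : ℕ) (v : Fin N → (Fin r → F)),
      (∀ i, v i ≠ 0) →
      (∃ (K m : ℕ) (R : Fin N ⊕ Fin K → Fin m → Prop),
        ∀ S : Finset (Fin N),
          LinearIndependent F (fun i : S => v i.1) ↔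
            ∃ f : Fin N ⊕ Fin K → Fin m,
              Set.InjOn f ((Sum.inl '' (S : Set (Fin N))) ∪ Set.range Sum.inr) ∧
              ∀ x ∈ ((Sum.inl '' (S : Set (Fin N))) ∪ Set.range Sum.inr), R x (f x)) →
      (∃ L : (Fin r → F) →ₗ[F] (Fin 3 → F), ∀ i, L (v i) ≠ 0) ∧
      (Fintype.card F = 4 → ∃ L : (Fin r → F) →ₗ[F] (Fin 2 → F), ∀ i, L (v i) ≠ 0) ∧
      (Module.finrank F (Submodule.span F (Set.range v)) ≤ Fintype.card F →
        ∃ L : (Fin r → F) →ₗ[F] (Fin 2 → F), ∀ i, L (v i) ≠ 0) ∧
      (∀ (F' : Type) [Field F'] [Fintype F'] (r' : ℕ) (w : Fin N → (Fin r' → F')),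
        (∀ S : Finset (Fin N), LinearIndependent F' (fun i : S => w i.1) ↔
          LinearIndependent F (fun i : S => v i.1)) →
        6 * (Fintype.card F' - 1) ^ 2 < Fintype.card F ^ 2 →
        ∃ L : (Fin r → F) →ₗ[F] (Fin 2 → F), ∀ i, L (v i) ≠ 0) := by
  intro F _ _ N r v hv h
  obtain ⟨h1, h2⟩ := Pool.Agent.Helper861.Gammoid.main2 F N r v hv h
  refine ⟨Pool.Agent.Helper861.Gammoid.main3 F N r v hv h, ?_, ?_, ?_⟩
  · intro hF
    exact h1 2 2 2 Nat.prime_two (by rw [hF]; norm_num) (by norm_num)
  · intro hr
    exact h2 1 (by rw [pow_one]; exact hr)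
  · intro F' _ _ r' w hw hk
    exact Pool.Agent.Helper861.TwoFields.main4 F N r v hv h F' r' 2 w hw hk

end Pool.Agent.Results.MP_3f7cc7_co.CriticalExponentTwoFields
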